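import Mathlib

set_option autoImplicit false

namespace Pool.Agent.Helper25.Circles

/-- The Euclidean plane. -/
abbrev Plane : Type := EuclideanSpace ℝ (Fin 2)

/-- The integer lattice in the plane. -/
def lattice : Set Plane := {p | ∀ i, ∃ k : ℤ, p i = (k : ℝ)}

/-- The lattice points enclosed by the circle with centre `c` and radius `r`. -/
def enclosed (c : Plane) (r : ℝ) : Set Plane := Metric.ball c r ∩ lattice

/-- The circle with centre `c` and radius `r` is `n`-enclosing. -/
def IsEnclosing (n : ℕ) (c : Plane) (r : ℝ) : Prop :=
  0 < r ∧ (enclosed c r).encard = (n : ℕ∞)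

/-- The circle with centre `c` and radius `r` is an MC-circle of `n`: it is `n`-enclosing and no
`n`-enclosing circle has a larger radius. -/
def IsMCCircle (n : ℕ) (c : Plane) (r : ℝ) : Prop :=
  IsEnclosing n c r ∧ ∀ (c' : Plane) (r' : ℝ), IsEnclosing n c' r' → r' ≤ r

/-- A lattice symmetry: an isometry of the plane carrying the lattice onto itself. -/
def IsLatticeSymmetry (g : Plane → Plane) : Prop := Isometry g ∧ g '' lattice = lattice

end Pool.Agent.Helper25.Circles
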