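import Pool.Agent.Helper25.CirclesDefs

set_option autoImplicit false

namespace Pool.Agent.Helper25.Circles

/-! ### Every point of the plane is within `R` of at least 323 lattice points -/

def P (u v : ℝ) : Prop :=
  ∃ S : Finset (ℤ × ℤ), 323 ≤ S.card ∧
    ∀ z ∈ S, ((z.1 : ℝ) - u) ^ 2 + ((z.2 : ℝ) - v) ^ 2 ≤ 60125 / 578

noncomputable def box : Finset (ℤ × ℤ) := (Finset.Icc (-12) 12) ×ˢ (Finset.Icc (-12) 12)

def near (m a b : ℤ) (z : ℤ × ℤ) : Bool :=
  decide (578 * ((m * z.1 - a) ^ 2 + (m * z.2 - b) ^ 2) ≤ 60125 * m ^ 2)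

inductive Tree : Type
  | leaf : Tree
  | rot : Tree → Tree
  | split : Tree → Tree → Tree

noncomputable def check : Tree → ℤ → ℤ → ℤ → ℤ → ℤ → ℤ → ℤ → Bool
  | .leaf, m, a, b, c, d, e, f =>
      decide (323 ≤ (box.filter (fun z => near m a b z && near m c d z && near m e f z)).card)
  | .rot t, m, a, b, c, d, e, f => check t m c d e f a b
  | .split l r, m, a, b, c, d, e, f =>
      check l (2 * m) (2 * a) (2 * b) (a + c) (b + d) (2 * e) (2 * f) &&
      check r (2 * m) (a + c) (b + d) (2 * c) (2 * d) (2 * e) (2 * f)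

theorem jensen_sq (α β γ p q r : ℝ) (hα : 0 ≤ α) (hβ : 0 ≤ β) (hγ : 0 ≤ γ)
    (h1 : α + β + γ = 1) :
    (α * p + β * q + γ * r) ^ 2 ≤ α * p ^ 2 + β * q ^ 2 + γ * r ^ 2 := by
  have h : α * p ^ 2 + β * q ^ 2 + γ * r ^ 2 - (α * p + β * q + γ * r) ^ 2
      = α * β * (p - q) ^ 2 + β * γ * (q - r) ^ 2 + α * γ * (p - r) ^ 2 := by
    have : γ = 1 - α - β := by linarith
    subst this
    ring
  have h2 : 0 ≤ α * β * (p - q) ^ 2 + β * γ * (q - r) ^ 2 + α * γ * (p - r) ^ 2 := by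
    positivity
  linarith

theorem near_iff {m a b : ℤ} {z : ℤ × ℤ} (h : near m a b z = true) :
    ((m : ℝ) * z.1 - a) ^ 2 + ((m : ℝ) * z.2 - b) ^ 2 ≤ 60125 / 578 * (m : ℝ) ^ 2 := by
  unfold near at h
  have h' := of_decide_eq_true h
  have h2 : (578 : ℝ) * (((m : ℝ) * z.1 - a) ^ 2 + ((m : ℝ) * z.2 - b) ^ 2)
      ≤ 60125 * (m : ℝ) ^ 2 := by exact_mod_cast h'
  linarith

theorem check_sound (t : Tree) : ∀ (m a b c d e f : ℤ), 0 < m →
    check t m a b c d e f = true →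
    ∀ (α β γ : ℝ), 0 ≤ α → 0 ≤ β → 0 ≤ γ → α + β + γ = 1 →
    ∀ u v : ℝ, (m : ℝ) * u = α * a + β * c + γ * e → (m : ℝ) * v = α * b + β * d + γ * f →
    P u v := by
  induction t with
  | leaf =>
    intro m a b c d e f hm hc α β γ hα hβ hγ h1 u v hu hv
    unfold check at hc
    have hc' := of_decide_eq_true hc
    refine ⟨_, hc', ?_⟩
    intro z hz
    rw [Finset.mem_filter] at hz
    obtain ⟨-, hz⟩ := hz
    simp only [Bool.and_eq_true] at hz
    obtain ⟨⟨hz1, hz2⟩, hz3⟩ := hz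
    have k1 := near_iff hz1
    have k2 := near_iff hz2
    have k3 := near_iff hz3
    have hm' : (0 : ℝ) < m := by exact_mod_cast hm
    have e1 : (m : ℝ) * z.1 - m * u
        = α * (m * z.1 - a) + β * (m * z.1 - c) + γ * (m * z.1 - e) := by
      rw [hu]
      have : (m : ℝ) * z.1 = (α + β + γ) * (m * z.1) := by rw [h1, one_mul]
      linear_combination this
    have e2 : (m : ℝ) * z.2 - m * v
        = α * (m * z.2 - b) + β * (m * z.2 - d) + γ * (m * z.2 - f) := by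
      rw [hv]
      have : (m : ℝ) * z.2 = (α + β + γ) * (m * z.2) := by rw [h1, one_mul]
      linear_combination this
    have j1 := jensen_sq α β γ (m * z.1 - a) (m * z.1 - c) (m * z.1 - e) hα hβ hγ h1
    have j2 := jensen_sq α β γ (m * z.2 - b) (m * z.2 - d) (m * z.2 - f) hα hβ hγ h1
    rw [← e1] at j1
    rw [← e2] at j2
    have key : (m : ℝ) ^ 2 * (((z.1 : ℝ) - u) ^ 2 + ((z.2 : ℝ) - v) ^ 2)
        ≤ (m : ℝ) ^ 2 * (60125 / 578) := by
      have l1 := mul_le_mul_of_nonneg_left k1 hα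
      have l2 := mul_le_mul_of_nonneg_left k2 hβ
      have l3 := mul_le_mul_of_nonneg_left k3 hγ
      have hs : α * (60125 / 578 * (m : ℝ) ^ 2) + β * (60125 / 578 * (m : ℝ) ^ 2)
          + γ * (60125 / 578 * (m : ℝ) ^ 2) = (m : ℝ) ^ 2 * (60125 / 578) := by
        have : (α + β + γ) * (60125 / 578 * (m : ℝ) ^ 2) = (m : ℝ) ^ 2 * (60125 / 578) := by
          rw [h1]; ring
        linarith
      nlinarith
    exact le_of_mul_le_mul_left key (by positivity)
  | rot t ih =>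
    intro m a b c d e f hm hc α β γ hα hβ hγ h1 u v hu hv
    unfold check at hc
    exact ih m c d e f a b hm hc β γ α hβ hγ hα (by linarith) u v (by linarith) (by linarith)
  | split l r ihl ihr =>
    intro m a b c d e f hm hc α β γ hα hβ hγ h1 u v hu hv
    unfold check at hc
    rw [Bool.and_eq_true] at hc
    obtain ⟨hl, hr⟩ := hc
    by_cases hab : β ≤ α
    · refine ihl (2 * m) (2 * a) (2 * b) (a + c) (b + d) (2 * e) (2 * f) (by linarith) hl
        (α - β) (2 * β) γ (by linarith) (by linarith) hγ (by linarith) u v ?_ ?_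
      · push_cast
        linear_combination 2 * hu
      · push_cast
        linear_combination 2 * hv
    · refine ihr (2 * m) (a + c) (b + d) (2 * c) (2 * d) (2 * e) (2 * f) (by linarith) hr
        (2 * α) (β - α) γ (by linarith) (by linarith) hγ (by linarith) u v ?_ ?_
      · push_cast
        linear_combination 2 * hu
      · push_cast
        linear_combination 2 * hv

def t1 : Tree := (.rot (.rot (.split (.split .leaf (.rot (.split .leaf .leaf))) (.rot (.split .leaf (.rot (.split (.rot (.rot (.split .leaf .leaf))) .leaf)))))))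

def t2 : Tree := (.split (.rot (.rot (.split (.rot (.rot (.split .leaf (.rot (.split .leaf .leaf))))) .leaf))) (.rot (.split (.rot (.rot (.split .leaf (.rot (.split (.rot (.rot (.split (.rot (.rot (.split (.rot (.rot (.split .leaf .leaf))) .leaf))) (.rot (.split .leaf (.rot (.split .leaf .leaf))))))) .leaf))))) (.rot (.split (.rot (.rot (.split (.rot (.rot (.split .leaf .leaf))) .leaf))) .leaf)))))

def t3 : Tree := (.rot (.split (.rot (.rot (.split (.rot (.rot (.split .leaf (.rot (.split .leaf .leaf))))) (.rot (.split (.rot (.rot (.split (.rot (.rot (.split (.rot (.rot (.split .leaf .leaf))) .leaf))) (.rot (.split (.rot (.rot (.split .leaf .leaf))) (.rot (.split (.rot (.rot (.split .leaf .leaf))) .leaf))))))) (.rot (.split .leaf (.rot (.split .leaf .leaf))))))))) (.rot (.split .leaf (.rot (.split .leaf .leaf))))))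

theorem ok1 : check t1 34 0 0 17 0 17 3 = true := by decide +kernel

theorem ok2 : check t2 34 0 0 17 3 9 9 = true := by decide +kernel

theorem ok3 : check t3 34 9 9 17 3 17 17 = true := by decide +kernel

theorem P_triangle (u v : ℝ) (h0 : 0 ≤ v) (h1 : v ≤ u) (h2 : u ≤ 1 / 2) : P u v := by
  by_cases hA : 17 * v ≤ 3 * u
  · refine check_sound t1 34 0 0 17 0 17 3 (by norm_num) ok1
      (1 - 2 * u) (2 * u - 34 * v / 3) (34 * v / 3) (by linarith) (by linarith) (by linarith)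
      (by ring) u v ?_ ?_
    · push_cast; ring
    · push_cast; ring
  · push Not at hA
    by_cases hB : 102 * u + 136 * v ≤ 63
    · refine check_sound t2 34 0 0 17 3 9 9 (by norm_num) ok2
        (1 - 17 * (u - v) / 7 - 17 * (17 * v - 3 * u) / 63) (17 * (u - v) / 7)
        (17 * (17 * v - 3 * u) / 63) (by linarith) (by linarith) (by linarith)
        (by ring) u v ?_ ?_
      · push_cast; ring
      · push_cast; ring
    · push Not at hB
      refine check_sound t3 34 9 9 17 3 17 17 (by norm_num) ok3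
        ((17 - 34 * u) / 8) (17 * (u - v) / 7) ((34 * u - 9) / 8 - 17 * (u - v) / 7)
        (by linarith) (by linarith) (by linarith) (by ring) u v ?_ ?_
      · push_cast; ring
      · push_cast; ring

theorem P_map {u v u' v' : ℝ} (F : ℤ × ℤ → ℤ × ℤ) (hF : Function.Injective F)
    (h : ∀ z : ℤ × ℤ, (((F z).1 : ℝ) - u') ^ 2 + (((F z).2 : ℝ) - v') ^ 2
      = ((z.1 : ℝ) - u) ^ 2 + ((z.2 : ℝ) - v) ^ 2) (hP : P u v) : P u' v' := by
  obtain ⟨S, hS, hz⟩ := hP
  refine ⟨S.image F, ?_, ?_⟩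
  · rwa [Finset.card_image_of_injective _ hF]
  · intro z hzS
    rw [Finset.mem_image] at hzS
    obtain ⟨w, hw, rfl⟩ := hzS
    rw [h]
    exact hz w hw

theorem P_all (u v : ℝ) : P u v := by
  have hpos : ∀ x y : ℝ, 0 ≤ x → x ≤ 1 / 2 → 0 ≤ y → y ≤ 1 / 2 → P x y := by
    intro x y hx hx' hy hy'
    by_cases h : y ≤ x
    · exact P_triangle x y hy h hx'
    · push Not at h
      refine P_map (u := y) (v := x) (fun z => (z.2, z.1)) ?_ ?_ (P_triangle y x hx h.le hy')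
      · intro z w hzw
        simp only [Prod.mk.injEq] at hzw
        exact Prod.ext hzw.2 hzw.1
      · intro z
        ring
  have hcase1 : ∀ x y : ℝ, |x| ≤ 1 / 2 → 0 ≤ y → y ≤ 1 / 2 → P x y := by
    intro x y hx hy hy'
    rcases abs_cases x with ⟨h1, h2⟩ | ⟨h1, h2⟩
    · exact hpos x y h2 (by linarith) hy hy'
    · refine P_map (u := -x) (v := y) (fun z => (-z.1, z.2)) ?_ ?_
        (hpos (-x) y (by linarith) (by linarith) hy hy')
      · intro z w hzw
        simp only [Prod.mk.injEq, neg_inj] at hzw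
        exact Prod.ext hzw.1 hzw.2
      · intro z
        push_cast
        ring
  have hcase2 : ∀ x y : ℝ, |x| ≤ 1 / 2 → |y| ≤ 1 / 2 → P x y := by
    intro x y hx hy
    rcases abs_cases y with ⟨h1, h2⟩ | ⟨h1, h2⟩
    · exact hcase1 x y hx h2 (by linarith)
    · refine P_map (u := x) (v := -y) (fun z => (z.1, -z.2)) ?_ ?_
        (hcase1 x (-y) hx (by linarith) (by linarith))
      · intro z w hzw
        simp only [Prod.mk.injEq, neg_inj] at hzw
        exact Prod.ext hzw.1 hzw.2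
      · intro z
        push_cast
        ring
  refine P_map (u := u - round u) (v := v - round v)
    (fun z => (z.1 + round u, z.2 + round v)) ?_ ?_
    (hcase2 _ _ (abs_sub_round u) (abs_sub_round v))
  · intro z w hzw
    simp only [Prod.mk.injEq, add_left_inj] at hzw
    exact Prod.ext hzw.1 hzw.2
  · intro z
    push_cast
    ring

/-! ### Coordinates -/

noncomputable def emb (z : ℤ × ℤ) : Plane := !₂[(z.1 : ℝ), (z.2 : ℝ)]

theorem emb_zero (z : ℤ × ℤ) : emb z 0 = (z.1 : ℝ) := rfl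

theorem emb_one (z : ℤ × ℤ) : emb z 1 = (z.2 : ℝ) := rfl

theorem emb_injective : Function.Injective emb := by
  intro z w h
  have h0 : emb z 0 = emb w 0 := by rw [h]
  have h1 : emb z 1 = emb w 1 := by rw [h]
  rw [emb_zero, emb_zero] at h0
  rw [emb_one, emb_one] at h1
  exact Prod.ext (Int.cast_injective h0) (Int.cast_injective h1)

theorem emb_mem (z : ℤ × ℤ) : emb z ∈ lattice := by
  intro i
  fin_cases i
  · exact ⟨z.1, rfl⟩
  · exact ⟨z.2, rfl⟩

theorem exists_emb {p : Plane} (hp : p ∈ lattice) : ∃ z : ℤ × ℤ, emb z = p := by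
  obtain ⟨k, hk⟩ := hp 0
  obtain ⟨l, hl⟩ := hp 1
  refine ⟨(k, l), ?_⟩
  ext i
  fin_cases i
  · exact hk.symm
  · exact hl.symm

theorem dist_sq (p q : Plane) : dist p q ^ 2 = (p 0 - q 0) ^ 2 + (p 1 - q 1) ^ 2 := by
  rw [EuclideanSpace.dist_eq, Real.sq_sqrt (Finset.sum_nonneg fun i _ => sq_nonneg _)]
  simp [Fin.sum_univ_two, Real.dist_eq, sq_abs]

theorem mem_ball_iff {p c : Plane} {r : ℝ} (hr : 0 < r) :
    p ∈ Metric.ball c r ↔ (p 0 - c 0) ^ 2 + (p 1 - c 1) ^ 2 < r ^ 2 := by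
  rw [Metric.mem_ball, ← dist_sq]
  constructor
  · intro h
    exact pow_lt_pow_left₀ h dist_nonneg two_ne_zero
  · intro h
    exact lt_of_pow_lt_pow_left₀ 2 hr.le h

/-- No circle of radius larger than `R` encloses exactly 322 lattice points. -/
theorem radius_le {c : Plane} {r R : ℝ} (hR : 0 ≤ R) (hR2 : R ^ 2 = 60125 / 578)
    (h : IsEnclosing 322 c r) : r ≤ R := by
  by_contra hlt
  push Not at hlt
  obtain ⟨hr, henc⟩ := h
  obtain ⟨S, hS, hz⟩ := P_all (c 0) (c 1)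
  have hsub : emb '' (S : Set (ℤ × ℤ)) ⊆ enclosed c r := by
    rintro _ ⟨z, hzS, rfl⟩
    refine ⟨?_, emb_mem z⟩
    rw [mem_ball_iff hr, emb_zero, emb_one]
    have h1 := hz z hzS
    have h2 : R ^ 2 < r ^ 2 := pow_lt_pow_left₀ hlt hR two_ne_zero
    linarith
  have h1 : (emb '' (S : Set (ℤ × ℤ))).encard ≤ (322 : ℕ) := henc ▸ Set.encard_le_encard hsub
  rw [emb_injective.encard_image, Set.encard_coe_eq_coe_finsetCard] at h1
  have h2 : S.card ≤ 322 := by exact_mod_cast h1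
  omega

/-! ### The two circles -/

noncomputable def box2 : Finset (ℤ × ℤ) := (Finset.Icc (-11) 11) ×ˢ (Finset.Icc (-11) 11)

noncomputable def S (a b : ℤ) : Finset (ℤ × ℤ) :=
  box2.filter (fun z => (34 * z.1 - a) ^ 2 + (34 * z.2 - b) ^ 2 < 120250)

theorem enclosed_eq {a b : ℤ} (ha : 0 ≤ a) (ha' : a ≤ 17) (hb : 0 ≤ b) (hb' : b ≤ 17)
    {c : Plane} {R : ℝ} (hR : 0 < R) (hR2 : R ^ 2 = 60125 / 578)
    (h0 : c 0 = a / 34) (h1 : c 1 = b / 34) :
    enclosed c R = emb '' (S a b : Set (ℤ × ℤ)) := by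
  have key : ∀ z : ℤ × ℤ, emb z ∈ Metric.ball c R ↔
      (34 * z.1 - a) ^ 2 + (34 * z.2 - b) ^ 2 < 120250 := by
    intro z
    rw [mem_ball_iff hR, emb_zero, emb_one, h0, h1, hR2]
    constructor
    · intro h
      have h' : ((34 : ℝ) * z.1 - a) ^ 2 + ((34 : ℝ) * z.2 - b) ^ 2 < 120250 := by
        have : ((34 : ℝ) * z.1 - a) ^ 2 + ((34 : ℝ) * z.2 - b) ^ 2
          = 1156 * (((z.1 : ℝ) - a / 34) ^ 2 + ((z.2 : ℝ) - b / 34) ^ 2) := by ring
        linarith
      exact_mod_cast h'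
    · intro h
      have h' : ((34 : ℝ) * z.1 - a) ^ 2 + ((34 : ℝ) * z.2 - b) ^ 2 < 120250 := by
        exact_mod_cast h
      have : ((34 : ℝ) * z.1 - a) ^ 2 + ((34 : ℝ) * z.2 - b) ^ 2
          = 1156 * (((z.1 : ℝ) - a / 34) ^ 2 + ((z.2 : ℝ) - b / 34) ^ 2) := by ring
      linarith
  ext p
  constructor
  · rintro ⟨hp, hl⟩
    obtain ⟨z, rfl⟩ := exists_emb hl
    rw [key] at hp
    refine ⟨z, ?_, rfl⟩
    have b1 : (34 * z.1 - a) ^ 2 < 347 ^ 2 := by nlinarith [sq_nonneg (34 * z.2 - b)]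
    have b2 : (34 * z.2 - b) ^ 2 < 347 ^ 2 := by nlinarith [sq_nonneg (34 * z.1 - a)]
    have c1 := abs_lt_of_sq_lt_sq' b1 (by norm_num)
    have c2 := abs_lt_of_sq_lt_sq' b2 (by norm_num)
    rw [Finset.mem_coe, S, Finset.mem_filter, box2, Finset.mem_product, Finset.mem_Icc,
      Finset.mem_Icc]
    refine ⟨⟨⟨?_, ?_⟩, ⟨?_, ?_⟩⟩, hp⟩ <;> omega
  · rintro ⟨z, hz, rfl⟩
    refine ⟨?_, emb_mem z⟩
    rw [key]
    rw [Finset.mem_coe, S, Finset.mem_filter] at hz
    exact hz.2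

theorem card_S1 : (S 9 9).card = 322 := by decide +kernel

theorem card_S2 : (S 17 3).card = 322 := by decide +kernel

noncomputable def c₁ : Plane := !₂[9 / 34, 9 / 34]

noncomputable def c₂ : Plane := !₂[1 / 2, 3 / 34]

noncomputable def R₀ : ℝ := Real.sqrt (60125 / 578)

theorem R₀_pos : 0 < R₀ := Real.sqrt_pos.mpr (by norm_num)

theorem R₀_sq : R₀ ^ 2 = 60125 / 578 := Real.sq_sqrt (by norm_num)

theorem enc₁ : enclosed c₁ R₀ = emb '' (S 9 9 : Set (ℤ × ℤ)) := by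
  refine enclosed_eq (by norm_num) (by norm_num) (by norm_num) (by norm_num) R₀_pos R₀_sq ?_ ?_
  · simp [c₁]
  · simp [c₁]

theorem enc₂ : enclosed c₂ R₀ = emb '' (S 17 3 : Set (ℤ × ℤ)) := by
  refine enclosed_eq (by norm_num) (by norm_num) (by norm_num) (by norm_num) R₀_pos R₀_sq ?_ ?_
  · simp [c₂]; norm_num
  · simp [c₂]

theorem mc₁ : IsMCCircle 322 c₁ R₀ := by
  refine ⟨⟨R₀_pos, ?_⟩, fun c' r' h => radius_le R₀_pos.le R₀_sq h⟩
  rw [enc₁, emb_injective.encard_image, Set.encard_coe_eq_coe_finsetCard, card_S1]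

theorem mc₂ : IsMCCircle 322 c₂ R₀ := by
  refine ⟨⟨R₀_pos, ?_⟩, fun c' r' h => radius_le R₀_pos.le R₀_sq h⟩
  rw [enc₂, emb_injective.encard_image, Set.encard_coe_eq_coe_finsetCard, card_S2]

/-! ### The circles are inequivalent -/

theorem centre_map {g : Plane → Plane} (hg : Isometry g) {c c' : Plane} {r : ℝ} (hr : 0 ≤ r)
    (h : g '' Metric.sphere c r = Metric.sphere c' r) : g c = c' := by
  have hsub : ∀ p ∈ Metric.sphere c' r, dist p (g c) = r := by
    intro p hp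
    rw [← h] at hp
    obtain ⟨q, hq, rfl⟩ := hp
    rw [hg.dist_eq]
    exact hq
  have hu : dist (!₂[c' 0 + r, c' 1] : Plane) c' ^ 2 = r ^ 2 := by
    rw [dist_sq]
    simp
  have hv : dist (!₂[c' 0 - r, c' 1] : Plane) c' ^ 2 = r ^ 2 := by
    rw [dist_sq]
    simp
  have hu' : dist (!₂[c' 0 + r, c' 1] : Plane) c' = r :=
    (pow_left_inj₀ dist_nonneg hr two_ne_zero).mp hu
  have hv' : dist (!₂[c' 0 - r, c' 1] : Plane) c' = r :=
    (pow_left_inj₀ dist_nonneg hr two_ne_zero).mp hv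
  have e1 := hsub _ hu'
  have e2 := hsub _ hv'
  have f1 : dist (!₂[c' 0 + r, c' 1] : Plane) (g c) ^ 2 = r ^ 2 := by rw [e1]
  have f2 : dist (!₂[c' 0 - r, c' 1] : Plane) (g c) ^ 2 = r ^ 2 := by rw [e2]
  rw [dist_sq] at f1 f2
  simp only [Matrix.cons_val_zero, Matrix.cons_val_one] at f1 f2
  have hsum : (c' 0 - g c 0) ^ 2 + (c' 1 - g c 1) ^ 2 = 0 := by
    nlinarith
  have g0 : c' 0 - g c 0 = 0 := by
    have : (c' 0 - g c 0) ^ 2 = 0 := by nlinarith [sq_nonneg (c' 0 - g c 0), sq_nonneg (c' 1 - g c 1)]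
    exact pow_eq_zero_iff two_ne_zero |>.mp this
  have g1 : c' 1 - g c 1 = 0 := by
    have : (c' 1 - g c 1) ^ 2 = 0 := by nlinarith [sq_nonneg (c' 0 - g c 0), sq_nonneg (c' 1 - g c 1)]
    exact pow_eq_zero_iff two_ne_zero |>.mp this
  ext i
  fin_cases i
  · simp only [Fin.zero_eta]; linarith
  · simp only [Fin.mk_one]; linarith

theorem circles_ne (g : Plane → Plane) (hg : IsLatticeSymmetry g) :
    g '' Metric.sphere c₁ R₀ ≠ Metric.sphere c₂ R₀ := by
  intro h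
  obtain ⟨hiso, hlat⟩ := hg
  have hc := centre_map hiso R₀_pos.le h
  have h0 : g (emb (0, 0)) ∈ lattice := by
    rw [← hlat]
    exact ⟨_, emb_mem _, rfl⟩
  obtain ⟨z, hz⟩ := exists_emb h0
  have hd : dist (emb z) c₂ ^ 2 = dist (emb (0, 0)) c₁ ^ 2 := by
    rw [hz, ← hc, hiso.dist_eq]
  rw [dist_sq, dist_sq, emb_zero, emb_one, emb_zero, emb_one] at hd
  have a0 : c₁ 0 = 9 / 34 := by simp [c₁]
  have a1 : c₁ 1 = 9 / 34 := by simp [c₁]
  have b0 : c₂ 0 = 1 / 2 := by simp [c₂]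
  have b1 : c₂ 1 = 3 / 34 := by simp [c₂]
  rw [a0, a1, b0, b1] at hd
  have h2 : ((34 * z.1 - 17) ^ 2 + (34 * z.2 - 3) ^ 2 : ℝ) = 162 := by
    have : ((34 * z.1 - 17) ^ 2 + (34 * z.2 - 3) ^ 2 : ℝ)
      = 1156 * (((z.1 : ℝ) - 1 / 2) ^ 2 + ((z.2 : ℝ) - 3 / 34) ^ 2) := by ring
    rw [this, hd]
    norm_num
  have h3 : (34 * z.1 - 17) ^ 2 + (34 * z.2 - 3) ^ 2 = 162 := by exact_mod_cast h2
  have h4 : (34 * z.1 - 17) ^ 2 < 17 ^ 2 := by nlinarith [sq_nonneg (34 * z.2 - 3)]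
  have h5 := abs_lt_of_sq_lt_sq' h4 (by norm_num)
  omega

/-! ### The sets of enclosed points are inequivalent -/

noncomputable def Q (A : Finset (ℤ × ℤ)) : ℤ :=
  ∑ p ∈ A, ∑ q ∈ A, ((p.1 - q.1) ^ 2 + (p.2 - q.2) ^ 2)

theorem Q_eq (A : Finset (ℤ × ℤ)) :
    Q A = 2 * (A.card : ℤ) * (∑ p ∈ A, (p.1 ^ 2 + p.2 ^ 2)) - 2 * (∑ p ∈ A, p.1) ^ 2
      - 2 * (∑ p ∈ A, p.2) ^ 2 := by
  have h : ∀ p ∈ A, ∑ q ∈ A, ((p.1 - q.1) ^ 2 + (p.2 - q.2) ^ 2)
      = (A.card : ℤ) * (p.1 ^ 2 + p.2 ^ 2) + (∑ q ∈ A, (q.1 ^ 2 + q.2 ^ 2))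
        - 2 * (p.1 * ∑ q ∈ A, q.1) - 2 * (p.2 * ∑ q ∈ A, q.2) := by
    intro p _
    rw [Finset.mul_sum, Finset.mul_sum, Finset.mul_sum, Finset.mul_sum, ← nsmul_eq_mul,
      ← Finset.sum_const, ← Finset.sum_add_distrib, ← Finset.sum_sub_distrib,
      ← Finset.sum_sub_distrib]
    refine Finset.sum_congr rfl fun q _ => ?_
    ring
  unfold Q
  rw [Finset.sum_congr rfl h, Finset.sum_sub_distrib, Finset.sum_sub_distrib,
    Finset.sum_add_distrib, ← Finset.mul_sum, ← Finset.mul_sum, ← Finset.mul_sum,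
    ← Finset.sum_mul, ← Finset.sum_mul, Finset.sum_const, nsmul_eq_mul]
  ring

theorem Q_S1 : Q (S 9 9) = 2 * 5310898 := by
  rw [Q_eq]
  decide +kernel

theorem Q_S2 : Q (S 17 3) = 2 * 5312761 := by
  rw [Q_eq]
  decide +kernel

theorem dist_emb (p q : ℤ × ℤ) :
    dist (emb p) (emb q) ^ 2 = (((p.1 - q.1) ^ 2 + (p.2 - q.2) ^ 2 : ℤ) : ℝ) := by
  rw [dist_sq, emb_zero, emb_one, emb_zero, emb_one]
  push_cast
  ring

theorem sum_dist (A : Finset (ℤ × ℤ)) (φ : ℤ × ℤ → Plane) (hφ : Function.Injective φ)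
    (hd : ∀ p q, dist (φ p) (φ q) = dist (emb p) (emb q)) (T : Finset Plane)
    (hT : (T : Set Plane) = φ '' (A : Set (ℤ × ℤ))) :
    ∑ x ∈ T, ∑ y ∈ T, dist x y ^ 2 = (Q A : ℝ) := by
  classical
  have hT' : T = A.image φ := by
    apply Finset.coe_injective
    rw [hT, Finset.coe_image]
  rw [hT', Finset.sum_image hφ.injOn, Q]
  push_cast
  refine Finset.sum_congr rfl fun p _ => ?_
  rw [Finset.sum_image hφ.injOn]
  refine Finset.sum_congr rfl fun q _ => ?_
  rw [hd, dist_emb]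
  push_cast
  ring

theorem sets_ne (g : Plane → Plane) (hg : IsLatticeSymmetry g) :
    g '' enclosed c₁ R₀ ≠ enclosed c₂ R₀ := by
  classical
  intro h
  obtain ⟨hiso, -⟩ := hg
  rw [enc₁, enc₂] at h
  have e1 := sum_dist (S 17 3) emb emb_injective (fun _ _ => rfl) ((S 17 3).image emb)
    (by rw [Finset.coe_image])
  have e2 := sum_dist (S 9 9) (g ∘ emb) (hiso.injective.comp emb_injective)
    (fun p q => hiso.dist_eq _ _) ((S 17 3).image emb)
    (by rw [Finset.coe_image, ← h, Set.image_comp])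
  rw [e1, Q_S1, Q_S2] at e2
  norm_num at e2

/-- The two circles of radius `√(60125/578)` with centres `(9/34, 9/34)` and `(1/2, 3/34)` are both
MC-circles of `322`; no lattice symmetry carries the first circle onto the second, and no lattice
symmetry carries the first MC-set onto the second. -/
theorem main :
    IsMCCircle 322 !₂[9 / 34, 9 / 34] (Real.sqrt (60125 / 578)) ∧
    IsMCCircle 322 !₂[1 / 2, 3 / 34] (Real.sqrt (60125 / 578)) ∧
    (∀ g : Plane → Plane, IsLatticeSymmetry g →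
      g '' Metric.sphere !₂[9 / 34, 9 / 34] (Real.sqrt (60125 / 578)) ≠
        Metric.sphere !₂[1 / 2, 3 / 34] (Real.sqrt (60125 / 578))) ∧
    (∀ g : Plane → Plane, IsLatticeSymmetry g →
      g '' enclosed !₂[9 / 34, 9 / 34] (Real.sqrt (60125 / 578)) ≠
        enclosed !₂[1 / 2, 3 / 34] (Real.sqrt (60125 / 578))) :=
  ⟨mc₁, mc₂, circles_ne, sets_ne⟩

end Pool.Agent.Helper25.Circles
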